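import Mathlib

set_option autoImplicit false

/-!
# The up/down score of the prime gaps is positive at `n = 261150`

All the primes up to `3666581` are found by a sieve whose state is one natural number (bit `i` of it stands for the
odd number `2 i + 1`), and the rises and falls of the gaps are found by shifts and bitwise operations on such
numbers. The kernel of Lean computes with natural numbers of this size quickly, so that the computation is a
proof by evaluation; no further axiom is used.
-/

namespace Pool.Agent.Results.MP_69d63a_nt.PositiveScore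

/-- `p i` is the `i`-th prime, indexed from zero: `p 0 = 2`, `p 1 = 3`, `p 2 = 5`. -/
noncomputable def p (i : ℕ) : ℕ := Nat.nth Nat.Prime i

/-- `g n = p n - p (n - 1)`, an integer; for `n ≥ 1` the `n`-th prime gap. -/
noncomputable def g (n : ℕ) : ℤ := (p n : ℤ) - (p (n - 1) : ℤ)

/-- The score: the sum of `sign (g k - g (k - 1))` over `2 ≤ k ≤ n`. -/
noncomputable def a (n : ℕ) : ℤ := ∑ k ∈ Finset.Icc 2 n, Int.sign (g k - g (k - 1))

/-! ## Bit masks -/

/-- The mask with the bits `0, d, 2 d, …, (L - 1) d`. -/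
def geom (d L : ℕ) : ℕ := (2 ^ (d * L) - 1) / (2 ^ d - 1)

theorem geom_eq (d L : ℕ) (hd : 1 ≤ d) : geom d L = ∑ t ∈ Finset.range L, 2 ^ (d * t) := by
  unfold geom
  have h2 : 2 ≤ 2 ^ d := by
    calc 2 = 2 ^ 1 := rfl
      _ ≤ 2 ^ d := Nat.pow_le_pow_right (by norm_num) hd
  rw [pow_mul, ← Nat.geomSum_eq h2]
  simp_rw [pow_mul]

theorem geom_succ (d L : ℕ) (hd : 1 ≤ d) : geom d (L + 1) = 2 ^ (d * L) + geom d L := by
  rw [geom_eq _ _ hd, geom_eq _ _ hd, Finset.sum_range_succ, add_comm]

theorem geom_lt (d L : ℕ) (hd : 1 ≤ d) : geom d L < 2 ^ (d * L) := by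
  induction L with
  | zero => simp [geom]
  | succ L ih =>
    rw [geom_succ _ _ hd]
    calc 2 ^ (d * L) + geom d L < 2 ^ (d * L) + 2 ^ (d * L) := by omega
      _ = 2 ^ (d * L + 1) := by ring
      _ ≤ 2 ^ (d * (L + 1)) := Nat.pow_le_pow_right (by norm_num) (by nlinarith)

theorem testBit_geom (d L i : ℕ) (hd : 1 ≤ d) : (geom d L).testBit i = true ↔ d ∣ i ∧ i < d * L := by
  induction L with
  | zero => simp [geom]
  | succ L ih =>
    rw [geom_succ _ _ hd]
    have hlt := geom_lt d L hd
    rcases lt_trichotomy i (d * L) with h | h | h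
    · rw [Nat.testBit_two_pow_add_gt h, ih]
      constructor
      · rintro ⟨h1, h2⟩
        exact ⟨h1, by nlinarith⟩
      · rintro ⟨h1, h2⟩
        exact ⟨h1, h⟩
    · subst h
      rw [Nat.testBit_two_pow_add_eq, Nat.testBit_lt_two_pow hlt]
      simp
      nlinarith
    · have h1 : 2 ^ (d * L) + geom d L < 2 ^ i := by
        calc 2 ^ (d * L) + geom d L < 2 ^ (d * L) + 2 ^ (d * L) := by omega
          _ = 2 ^ (d * L + 1) := by ring
          _ ≤ 2 ^ i := Nat.pow_le_pow_right (by norm_num) h
      rw [Nat.testBit_lt_two_pow h1]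
      constructor
      · intro h2; exact absurd h2 (by simp)
      · rintro ⟨⟨t, ht⟩, h3⟩
        exfalso
        subst ht
        have h4 : t < L + 1 := lt_of_mul_lt_mul_left h3 (Nat.zero_le d)
        have h5 : L < t := lt_of_mul_lt_mul_left h (Nat.zero_le d)
        omega

/-! ## Counting bits -/

/-- The number of the positions `i < n` with bit `1`. -/
def cnt (n X : ℕ) : ℕ := ((Finset.range n).filter fun i => X.testBit i = true).card

theorem cnt_eq_sum (n X : ℕ) : cnt n X = ∑ i ∈ Finset.range n, if X.testBit i = true then 1 else 0 := by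
  unfold cnt
  rw [Finset.card_filter]

/-- Binary expansion. -/
theorem eq_sum_bits (n : ℕ) : ∀ X : ℕ, X < 2 ^ n →
    X = ∑ i ∈ Finset.range n, if X.testBit i = true then 2 ^ i else 0 := by
  induction n with
  | zero => intro X hX; simp at hX; simp [hX]
  | succ n ih =>
    intro X hX
    rw [Finset.sum_range_succ']
    have h1 : X / 2 < 2 ^ n := by
      rw [Nat.div_lt_iff_lt_mul (by norm_num)]
      rw [pow_succ] at hX
      exact hX
    have h2 := ih (X / 2) h1
    have h3 : ∀ i, X.testBit (i + 1) = (X / 2).testBit i := fun i => Nat.testBit_succ X i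
    simp_rw [h3]
    have h4 : (∑ i ∈ Finset.range n, if (X / 2).testBit i = true then 2 ^ (i + 1) else 0) = 2 * (X / 2) := by
      conv_rhs => rw [h2]
      rw [Finset.mul_sum]
      apply Finset.sum_congr rfl
      intro i _
      split_ifs
      · rw [pow_succ]; ring
      · simp
    rw [h4]
    have h5 : X.testBit 0 = decide (X % 2 = 1) := Nat.testBit_zero X
    rw [h5]
    rcases Nat.mod_two_eq_zero_or_one X with h | h
    · simp [h]; omega
    · simp [h]; omega

/-- The number of bits, computed by `w` operations on large numbers. -/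
def pop (w L X : ℕ) : ℕ :=
  Nat.rec (motive := fun _ => ℕ) 0 (fun j s => s + ((X >>> j) &&& geom w L) % (2 ^ w - 1)) w

/-- The partial sums. -/
def popAux (w L X : ℕ) (v : ℕ) : ℕ :=
  Nat.rec (motive := fun _ => ℕ) 0 (fun j s => s + ((X >>> j) &&& geom w L) % (2 ^ w - 1)) v

theorem popAux_eq (w L X v : ℕ) :
    popAux w L X v = ∑ j ∈ Finset.range v, ((X >>> j) &&& geom w L) % (2 ^ w - 1) := by
  induction v with
  | zero => rfl
  | succ v ih =>
    rw [Finset.sum_range_succ, ← ih]
    rfl

theorem class_count (w L X j : ℕ) (hw : 2 ≤ w) (hL : L < 2 ^ w - 1) :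
    ((X >>> j) &&& geom w L) % (2 ^ w - 1) =
      ∑ t ∈ Finset.range L, if X.testBit (j + w * t) = true then 1 else 0 := by
  have hw1 : 1 ≤ w := by omega
  set Y := (X >>> j) &&& geom w L with hY
  have hbit : ∀ i, Y.testBit i = true ↔ X.testBit (j + i) = true ∧ w ∣ i ∧ i < w * L := by
    intro i
    rw [hY, Nat.testBit_and, Nat.testBit_shiftRight, Bool.and_eq_true, testBit_geom _ _ _ hw1]
  have hlt : Y < 2 ^ (w * L) := lt_of_le_of_lt Nat.and_le_right (geom_lt w L hw1)
  have hsum := eq_sum_bits (w * L) Y hlt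
  -- regroup
  have hre : (∑ i ∈ Finset.range (w * L), if Y.testBit i = true then 2 ^ i else 0) =
      ∑ t ∈ Finset.range L, if X.testBit (j + w * t) = true then 2 ^ (w * t) else 0 := by
    rw [← Finset.sum_filter, ← Finset.sum_filter]
    symm
    apply Finset.sum_bij (fun t _ => w * t)
    · intro t ht
      rw [Finset.mem_filter, Finset.mem_range] at ht ⊢
      refine ⟨Nat.mul_lt_mul_of_pos_left ht.1 (by omega), ?_⟩
      rw [hbit]
      exact ⟨ht.2, Dvd.intro t rfl, Nat.mul_lt_mul_of_pos_left ht.1 (by omega)⟩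
    · intro s _ t _ h
      exact Nat.eq_of_mul_eq_mul_left (by omega) h
    · intro i hi
      rw [Finset.mem_filter, Finset.mem_range, hbit] at hi
      obtain ⟨hi1, hi2, ⟨t, rfl⟩, hi4⟩ := hi
      refine ⟨t, ?_, rfl⟩
      rw [Finset.mem_filter, Finset.mem_range]
      exact ⟨lt_of_mul_lt_mul_left hi1 (Nat.zero_le w), hi2⟩
    · intro t _
      rfl
  have hmod : Y ≡ ∑ t ∈ Finset.range L, (if X.testBit (j + w * t) = true then 1 else 0) [MOD 2 ^ w - 1] := by
    conv_lhs => rw [hsum, hre]
    apply Nat.ModEq.sum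
    intro t _
    split_ifs
    · rw [pow_mul]
      have h1 : 2 ^ w ≡ 1 [MOD 2 ^ w - 1] := by
        have h2 : 1 ≤ 2 ^ w := Nat.one_le_two_pow
        have h3 : 2 ^ w = (2 ^ w - 1) + 1 := by omega
        have h4 : (2 ^ w - 1) + 1 ≡ 0 + 1 [MOD 2 ^ w - 1] := by
          apply Nat.ModEq.add_right
          exact (Nat.modEq_zero_iff_dvd).2 dvd_rfl
        calc 2 ^ w = (2 ^ w - 1) + 1 := h3
          _ ≡ 0 + 1 [MOD 2 ^ w - 1] := h4
      calc (2 ^ w) ^ t ≡ 1 ^ t [MOD 2 ^ w - 1] := h1.pow t
        _ = 1 := one_pow t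
    · rfl
  have hle : ∑ t ∈ Finset.range L, (if X.testBit (j + w * t) = true then 1 else 0) ≤ L := by
    calc _ ≤ ∑ t ∈ Finset.range L, 1 := by
          apply Finset.sum_le_sum
          intro t _
          split_ifs <;> omega
      _ = L := by simp
  rw [Nat.ModEq] at hmod
  rw [hmod]
  exact Nat.mod_eq_of_lt (by omega)

theorem regroup (f : ℕ → ℕ) (w L : ℕ) :
    ∑ j ∈ Finset.range w, ∑ t ∈ Finset.range L, f (j + w * t) = ∑ i ∈ Finset.range (w * L), f i := by
  induction L with
  | zero => simp
  | succ L ih =>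
    rw [Nat.mul_succ, Finset.sum_range_add, ← ih, ← Finset.sum_add_distrib]
    apply Finset.sum_congr rfl
    intro j _
    rw [Finset.sum_range_succ, add_comm j (w * L)]

theorem pop_eq (w L X : ℕ) (hw : 2 ≤ w) (hL : L < 2 ^ w - 1) : pop w L X = cnt (w * L) X := by
  have h1 : pop w L X = popAux w L X w := rfl
  rw [h1, popAux_eq, cnt_eq_sum, ← regroup (fun i => if X.testBit i = true then 1 else 0)]
  apply Finset.sum_congr rfl
  intro j _
  exact class_count w L X j hw hL

/-! ## The sieve -/

/-- The number of bits: the odd numbers up to `3666581` are considered. -/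
def B : ℕ := 1833291

/-- The mask of the odd multiples `d (d + 2 t)` of `d = 2 j + 3`. -/
def mult (j : ℕ) : ℕ := geom (2 * j + 3) (B / (2 * j + 3) + 1) <<< (2 * j * j + 6 * j + 4)

/-- The union of the masks of the odd multiples of `3, 5, …, 2 J + 1`, and the bit `0` (the number `1`). -/
def sieve (J : ℕ) : ℕ := Nat.rec (motive := fun _ => ℕ) 1 (fun j s => s ||| mult j) J

theorem sieve_succ (J : ℕ) : sieve (J + 1) = sieve J ||| mult J := rfl

theorem testBit_mult (j i : ℕ) (hi : i < B) :
    (mult j).testBit i = true ↔ ∃ t, 2 * i + 1 = (2 * j + 3) * ((2 * j + 3) + 2 * t) := by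
  unfold mult
  rw [Nat.testBit_shiftLeft, Bool.and_eq_true, decide_eq_true_eq, testBit_geom _ _ _ (by omega)]
  constructor
  · rintro ⟨h1, ⟨t, ht⟩, _⟩
    refine ⟨t, ?_⟩
    have h2 : i = (2 * j + 3) * t + (2 * j * j + 6 * j + 4) := by omega
    rw [h2]; ring
  · rintro ⟨t, ht⟩
    have h2 : i = (2 * j + 3) * t + (2 * j * j + 6 * j + 4) := by nlinarith
    refine ⟨by omega, ⟨t, by omega⟩, ?_⟩
    have h3 : B < (2 * j + 3) * (B / (2 * j + 3) + 1) := Nat.lt_mul_div_succ B (by omega)
    omega

theorem testBit_sieve (J i : ℕ) (hi : i < B) :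
    (sieve J).testBit i = true ↔ i = 0 ∨ ∃ j, j < J ∧ ∃ t, 2 * i + 1 = (2 * j + 3) * ((2 * j + 3) + 2 * t) := by
  induction J with
  | zero =>
    have h : sieve 0 = 2 ^ 0 := rfl
    rw [h, Nat.testBit_two_pow]
    simp [eq_comm]
  | succ J ih =>
    rw [sieve_succ, Nat.testBit_or, Bool.or_eq_true, ih, testBit_mult _ _ hi]
    constructor
    · rintro ((h | ⟨j, h1, h2⟩) | h)
      · exact Or.inl h
      · exact Or.inr ⟨j, by omega, h2⟩
      · exact Or.inr ⟨J, by omega, h⟩
    · rintro (h | ⟨j, h1, h2⟩)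
      · exact Or.inl (Or.inl h)
      · rcases Nat.lt_succ_iff_lt_or_eq.1 h1 with h | h
        · exact Or.inl (Or.inr ⟨j, h, h2⟩)
        · subst h; exact Or.inr h2

/-- The mask of the odd primes up to `3666581`. -/
def P : ℕ := (2 ^ B - 1) ^^^ ((2 ^ B - 1) &&& sieve 956)

theorem testBit_P (i : ℕ) : P.testBit i = true ↔ i < B ∧ (2 * i + 1).Prime := by
  unfold P
  rw [Nat.testBit_xor, Nat.testBit_and, Nat.testBit_two_pow_sub_one]
  by_cases hi : i < B
  · simp only [hi, decide_true, Bool.true_and, true_and]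
    have h1 : ((true ^^ (sieve 956).testBit i) = true) ↔ ¬ ((sieve 956).testBit i = true) := by
      cases (sieve 956).testBit i <;> simp
    rw [h1, testBit_sieve _ _ hi]
    constructor
    · intro h
      push Not at h
      obtain ⟨h0, h2⟩ := h
      by_contra hnp
      have hm := Nat.minFac_dvd (2 * i + 1)
      have hmp := Nat.minFac_prime (show 2 * i + 1 ≠ 1 by omega)
      obtain ⟨m, hm⟩ := hm
      set d := Nat.minFac (2 * i + 1) with hd
      have hsq : d ^ 2 ≤ 2 * i + 1 := Nat.minFac_sq_le_self (by omega) hnp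
      have hdodd : d % 2 = 1 := by
        rcases Nat.mod_two_eq_zero_or_one d with h | h
        · exfalso
          have : (2 * i + 1) % 2 = 0 := by rw [hm, Nat.mul_mod, h, zero_mul, Nat.zero_mod]
          omega
        · exact h
      have hmodd : m % 2 = 1 := by
        rcases Nat.mod_two_eq_zero_or_one m with h | h
        · exfalso
          have : (2 * i + 1) % 2 = 0 := by rw [hm, Nat.mul_mod, h, mul_zero, Nat.zero_mod]
          omega
        · exact h
      have hd3 : 3 ≤ d := by
        have := hmp.two_le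
        omega
      have hdm : d ≤ m := by
        have h5 : d * d ≤ d * m := by rw [← hm, ← sq]; exact hsq
        exact Nat.le_of_mul_le_mul_left h5 (by omega)
      have hi' : i < 1833291 := hi
      have hd4 : d ≤ 1914 := by nlinarith
      obtain ⟨j, hj⟩ : ∃ j, d = 2 * j + 3 := ⟨(d - 3) / 2, by omega⟩
      obtain ⟨t, ht⟩ : ∃ t, m = d + 2 * t := ⟨(m - d) / 2, by omega⟩
      apply h2 j (by omega) t
      rw [← hj, ← ht]
      exact hm
    · intro hp h
      rcases h with h | ⟨j, _, t, ht⟩
      · subst h; exact absurd hp (by norm_num)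
      · rw [ht] at hp
        exact Nat.not_prime_mul (by omega) (by omega) hp
  · simp [hi]

/-! ## Rises and falls -/

/-- The positions of the primes without a prime at one of the next `h` positions. -/
def R (h : ℕ) : ℕ := Nat.rec (motive := fun _ => ℕ) P (fun h r => r ^^^ (r &&& (P >>> (h + 1)))) h

theorem R_succ (h : ℕ) : R (h + 1) = R h ^^^ (R h &&& (P >>> (h + 1))) := rfl

theorem testBit_R (h i : ℕ) :
    (R h).testBit i = true ↔ P.testBit i = true ∧ ∀ j, 1 ≤ j → j ≤ h → ¬ P.testBit (i + j) = true := by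
  induction h with
  | zero =>
    have e : R 0 = P := rfl
    rw [e]
    constructor
    · intro h1; exact ⟨h1, fun j h2 h3 => by omega⟩
    · exact fun h1 => h1.1
  | succ h ih =>
    rw [R_succ, Nat.testBit_xor, Nat.testBit_and, Nat.testBit_shiftRight]
    have e : (((R h).testBit i ^^ ((R h).testBit i && P.testBit (h + 1 + i))) = true) ↔
        (R h).testBit i = true ∧ ¬ P.testBit (i + (h + 1)) = true := by
      rw [add_comm (h + 1) i]
      cases (R h).testBit i <;> cases P.testBit (i + (h + 1)) <;> simp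
    rw [e, ih]
    constructor
    · rintro ⟨⟨h1, h2⟩, h3⟩
      refine ⟨h1, fun j h4 h5 => ?_⟩
      rcases Nat.lt_or_ge j (h + 1) with h6 | h6
      · exact h2 j h4 (by omega)
      · have : j = h + 1 := by omega
        rw [this]; exact h3
    · rintro ⟨h1, h2⟩
      exact ⟨⟨h1, fun j h4 h5 => h2 j h4 (by omega)⟩, h2 (h + 1) (by omega) le_rfl⟩

/-- The rises. -/
def U (H : ℕ) : ℕ := Nat.rec (motive := fun _ => ℕ) 0
  (fun h u => u ||| ((R h &&& (P >>> (h + 1))) &&& (R (h + 1) >>> (h + 1)))) H

theorem U_succ (h : ℕ) : U (h + 1) = U h ||| ((R h &&& (P >>> (h + 1))) &&& (R (h + 1) >>> (h + 1))) := rfl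

/-- The falls. -/
def D (H : ℕ) : ℕ := Nat.rec (motive := fun _ => ℕ) 0
  (fun h u => u ||| ((R h &&& (P >>> (h + 1))) &&& ((P ^^^ R h) >>> (h + 1)))) H

theorem D_succ (h : ℕ) : D (h + 1) = D h ||| ((R h &&& (P >>> (h + 1))) &&& ((P ^^^ R h) >>> (h + 1))) := rfl

theorem testBit_U (H i : ℕ) :
    (U H).testBit i = true ↔ ∃ h, h < H ∧ (R h).testBit i = true ∧ P.testBit (i + (h + 1)) = true ∧
      (R (h + 1)).testBit (i + (h + 1)) = true := by
  induction H with
  | zero =>
    have e : U 0 = 0 := rfl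
    rw [e]
    simp
  | succ H ih =>
    rw [U_succ, Nat.testBit_or, Bool.or_eq_true, ih, Nat.testBit_and, Nat.testBit_and, Bool.and_eq_true,
      Bool.and_eq_true, Nat.testBit_shiftRight, Nat.testBit_shiftRight, add_comm (H + 1) i]
    constructor
    · rintro (⟨h, h1, h2⟩ | ⟨⟨h1, h2⟩, h3⟩)
      · exact ⟨h, by omega, h2⟩
      · exact ⟨H, by omega, h1, h2, h3⟩
    · rintro ⟨h, h1, h2⟩
      rcases Nat.lt_succ_iff_lt_or_eq.1 h1 with h3 | h3
      · exact Or.inl ⟨h, h3, h2⟩
      · subst h3; exact Or.inr ⟨⟨h2.1, h2.2.1⟩, h2.2.2⟩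

theorem testBit_D (H i : ℕ) :
    (D H).testBit i = true ↔ ∃ h, h < H ∧ (R h).testBit i = true ∧ P.testBit (i + (h + 1)) = true ∧
      (P ^^^ R h).testBit (i + (h + 1)) = true := by
  induction H with
  | zero =>
    have e : D 0 = 0 := rfl
    rw [e]
    simp
  | succ H ih =>
    rw [D_succ, Nat.testBit_or, Bool.or_eq_true, ih, Nat.testBit_and, Nat.testBit_and, Bool.and_eq_true,
      Bool.and_eq_true, Nat.testBit_shiftRight, Nat.testBit_shiftRight, add_comm (H + 1) i]
    constructor
    · rintro (⟨h, h1, h2⟩ | ⟨⟨h1, h2⟩, h3⟩)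
      · exact ⟨h, by omega, h2⟩
      · exact ⟨H, by omega, h1, h2, h3⟩
    · rintro ⟨h, h1, h2⟩
      rcases Nat.lt_succ_iff_lt_or_eq.1 h1 with h3 | h3
      · exact Or.inl ⟨h, h3, h2⟩
      · subst h3; exact Or.inr ⟨⟨h2.1, h2.2.1⟩, h2.2.2⟩

/-! ## The computation -/

/-- The position of the third last prime considered (the prime `3666529`), plus one. -/
def E : ℕ := 1833265

set_option maxRecDepth 100000 in
theorem comp_B : pop 32 60000 (P &&& (2 ^ 1833290 - 1)) = 261149 ∧ P.testBit 1833290 = true := by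
  decide +kernel

set_option maxRecDepth 100000 in
theorem comp_E : pop 32 60000 (P &&& (2 ^ 1833264 - 1)) = 261147 ∧ P.testBit 1833264 = true := by
  decide +kernel

set_option maxRecDepth 100000 in
theorem comp_R : R 74 &&& (2 ^ E - 1) = 0 := by
  decide +kernel

set_option maxRecDepth 100000 in
theorem comp_UD : pop 32 60000 (U 74 &&& (2 ^ E - 1)) = pop 32 60000 (D 74 &&& (2 ^ E - 1)) := by
  decide +kernel

/-! ## From the computation to the primes -/

theorem cnt_mask (m n X : ℕ) (h : m ≤ n) : cnt n (X &&& (2 ^ m - 1)) = cnt m X := by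
  unfold cnt
  congr 1
  ext i
  rw [Finset.mem_filter, Finset.mem_filter, Finset.mem_range, Finset.mem_range, Nat.testBit_and,
    Nat.testBit_two_pow_sub_one, Bool.and_eq_true, decide_eq_true_eq]
  constructor
  · rintro ⟨_, h2, h3⟩; exact ⟨h3, h2⟩
  · rintro ⟨h1, h2⟩; exact ⟨by omega, h2, h1⟩

theorem count_odd (m : ℕ) (hm : 1 ≤ m) (hB : m ≤ B) : Nat.count Nat.Prime (2 * m + 1) = 1 + cnt m P := by
  induction m, hm using Nat.le_induction with
  | base =>
    have h1 : Nat.count Nat.Prime (2 * 1 + 1) = 1 := by decide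
    have h2 : cnt 1 P = 0 := by
      unfold cnt
      rw [Finset.card_eq_zero, Finset.filter_eq_empty_iff]
      intro i hi
      rw [Finset.mem_range] at hi
      have : i = 0 := by omega
      subst this
      rw [testBit_P]
      norm_num
    rw [h1, h2]
  | succ m hm ih =>
    have e : 2 * (m + 1) + 1 = (2 * m + 1) + 1 + 1 := by ring
    rw [e, Nat.count_succ, Nat.count_succ, ih (by omega)]
    have h1 : ¬ (2 * m + 1 + 1).Prime := by
      intro hp
      have h2 : 2 ∣ 2 * m + 1 + 1 := ⟨m + 1, by ring⟩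
      have := (Nat.prime_dvd_prime_iff_eq Nat.prime_two hp).1 h2
      omega
    rw [if_neg h1]
    have h3 : cnt (m + 1) P = cnt m P + if (2 * m + 1).Prime then 1 else 0 := by
      rw [cnt_eq_sum, cnt_eq_sum, Finset.sum_range_succ]
      congr 1
      by_cases h4 : (2 * m + 1).Prime
      · rw [if_pos h4, if_pos ((testBit_P m).2 ⟨by omega, h4⟩)]
      · rw [if_neg h4, if_neg (fun h5 => h4 ((testBit_P m).1 h5).2)]
    rw [h3]
    ring

theorem p_n : p 261150 = 2 * 1833290 + 1 := by
  have hp : (2 * 1833290 + 1).Prime := ((testBit_P _).1 comp_B.2).2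
  have h1 := count_odd 1833290 (by norm_num) (by unfold B; norm_num)
  have h2 := comp_B.1
  rw [pop_eq _ _ _ (by norm_num) (by norm_num), cnt_mask _ _ _ (by norm_num)] at h2
  rw [h2] at h1
  have h3 : Nat.count Nat.Prime (2 * 1833290 + 1) = 261150 := by rw [h1]
  unfold p
  rw [← h3]
  exact Nat.nth_count hp

theorem p_K : p 261148 = 2 * 1833264 + 1 := by
  have hp : (2 * 1833264 + 1).Prime := ((testBit_P _).1 comp_E.2).2
  have h1 := count_odd 1833264 (by norm_num) (by unfold B; norm_num)
  have h2 := comp_E.1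
  rw [pop_eq _ _ _ (by norm_num) (by norm_num), cnt_mask _ _ _ (by norm_num)] at h2
  rw [h2] at h1
  have h3 : Nat.count Nat.Prime (2 * 1833264 + 1) = 261148 := by rw [h1]
  unfold p
  rw [← h3]
  exact Nat.nth_count hp

theorem p_mono : StrictMono p := Nat.nth_strictMono Nat.infinite_setOfPred_prime

theorem p_prime (k : ℕ) : (p k).Prime := Nat.nth_mem_of_infinite Nat.infinite_setOfPred_prime k

/-- The position of the `k`-th prime. -/
noncomputable def pos (k : ℕ) : ℕ := (p k - 1) / 2

theorem p_zero : p 0 = 2 := Nat.nth_prime_zero_eq_two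

theorem pos_spec (k : ℕ) (hk : 1 ≤ k) : 2 * pos k + 1 = p k := by
  have h1 : p 0 < p k := p_mono hk
  rw [p_zero] at h1
  have h2 : p k % 2 = 1 := ((p_prime k).eq_two_or_odd).resolve_left (by omega)
  unfold pos
  omega

theorem pos_lt (j k : ℕ) (hj : 1 ≤ j) (hjk : j < k) : pos j < pos k := by
  have h1 := pos_spec j hj
  have h2 := pos_spec k (by omega)
  have h3 := p_mono hjk
  omega

/-- Every odd prime is at the position of its index. -/
theorem exists_index (i : ℕ) (hi : (2 * i + 1).Prime) : ∃ k, 1 ≤ k ∧ pos k = i := by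
  have h1 : p (Nat.count Nat.Prime (2 * i + 1)) = 2 * i + 1 := Nat.nth_count hi
  refine ⟨Nat.count Nat.Prime (2 * i + 1), ?_, ?_⟩
  · by_contra h
    have h0 : Nat.count Nat.Prime (2 * i + 1) = 0 := by omega
    rw [h0, p_zero] at h1
    omega
  · unfold pos
    rw [h1]
    omega

theorem pos_inj {j k : ℕ} (hj : 1 ≤ j) (hk : 1 ≤ k) (h : pos j = pos k) : j = k := by
  rcases lt_trichotomy j k with h1 | h1 | h1
  · have := pos_lt j k hj h1; omega
  · exact h1
  · have := pos_lt k j hk h1; omega

/-- No prime between consecutive primes. -/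
theorem not_between (k i : ℕ) (hk : 1 ≤ k) (h1 : pos k < i) (h2 : i < pos (k + 1)) : ¬ (2 * i + 1).Prime := by
  intro hp
  obtain ⟨j, hj, rfl⟩ := exists_index i hp
  have h3 : k < j := by
    by_contra h
    rcases Nat.lt_or_ge j k with h4 | h4
    · have := pos_lt j k hj h4; omega
    · have : j = k := by omega
      subst this; omega
  have h4 : j < k + 1 := by
    by_contra h
    rcases Nat.lt_or_ge (k + 1) j with h5 | h5
    · have := pos_lt (k + 1) j (by omega) h5; omega
    · have : j = k + 1 := by omega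
      subst this; omega
  omega

theorem pos_n : pos 261150 = 1833290 := by
  unfold pos; rw [p_n]

theorem pos_K : pos 261148 = 1833264 := by
  unfold pos; rw [p_K]

theorem pos_bit (k : ℕ) (hk : 1 ≤ k) (hn : k ≤ 261150) : P.testBit (pos k) = true := by
  rw [testBit_P, pos_spec k hk]
  refine ⟨?_, p_prime k⟩
  have h1 : pos k ≤ pos 261150 := by
    rcases Nat.lt_or_ge k 261150 with h | h
    · exact (pos_lt k _ hk h).le
    · have : k = 261150 := by omega
      rw [this]
  rw [pos_n] at h1
  unfold B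
  omega

theorem not_bit_between (k i : ℕ) (hk : 1 ≤ k) (h1 : pos k < i) (h2 : i < pos (k + 1)) :
    ¬ P.testBit i = true := fun h => not_between k i hk h1 h2 ((testBit_P i).1 h).2

/-- The next prime is not too far. -/
theorem gap_le (k : ℕ) (hk : 1 ≤ k) (hK : k ≤ 261148) : pos (k + 1) ≤ pos k + 74 := by
  by_contra hcon
  have h1 : pos k < E := by
    have h2 : pos k ≤ pos 261148 := by
      rcases Nat.lt_or_ge k 261148 with h | h
      · exact (pos_lt k _ hk h).le
      · have : k = 261148 := by omega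
        rw [this]
    rw [pos_K] at h2
    unfold E
    omega
  have h3 : (R 74 &&& (2 ^ E - 1)).testBit (pos k) = true := by
    rw [Nat.testBit_and, Nat.testBit_two_pow_sub_one, Bool.and_eq_true, decide_eq_true_eq, testBit_R]
    exact ⟨⟨pos_bit k hk (by omega), fun j hj1 hj2 =>
      not_bit_between k (pos k + j) hk (by omega) (by omega)⟩, h1⟩
  rw [comp_R] at h3
  simp at h3

theorem bit_U_iff (k : ℕ) (hk : 1 ≤ k) (hK : k ≤ 261148) :
    (U 74).testBit (pos k) = true ↔ pos (k + 1) - pos k < pos (k + 2) - pos (k + 1) := by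
  have hb0 := pos_bit k hk (by omega)
  have hb1 := pos_bit (k + 1) (by omega) (by omega)
  have hb2 := pos_bit (k + 2) (by omega) (by omega)
  have hl1 := pos_lt k (k + 1) hk (by omega)
  have hl2 := pos_lt (k + 1) (k + 2) (by omega) (by omega)
  have e3 : pos (k + 1 + 1) = pos (k + 2) := rfl
  have hg := gap_le k hk hK
  rw [testBit_U]
  constructor
  · rintro ⟨h, h1, h2, h3, h4⟩
    rw [testBit_R] at h2 h4
    -- `pos k + (h + 1) = pos (k + 1)`
    have e : pos k + (h + 1) = pos (k + 1) := by
      rcases lt_trichotomy (pos k + (h + 1)) (pos (k + 1)) with h5 | h5 | h5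
      · exact absurd h3 (not_bit_between k _ hk (by omega) h5)
      · exact h5
      · exfalso
        apply h2.2 (pos (k + 1) - pos k) (by omega) (by omega)
        have : pos k + (pos (k + 1) - pos k) = pos (k + 1) := by omega
        rw [this]; exact hb1
    rw [e] at h4
    by_contra hcon
    apply h4.2 (pos (k + 2) - pos (k + 1)) (by omega) (by omega)
    have : pos (k + 1) + (pos (k + 2) - pos (k + 1)) = pos (k + 2) := by omega
    rw [this]; exact hb2
  · intro hlt
    have e : pos k + (pos (k + 1) - pos k - 1 + 1) = pos (k + 1) := by omega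
    refine ⟨pos (k + 1) - pos k - 1, by omega, ?_, ?_, ?_⟩
    · rw [testBit_R]
      exact ⟨hb0, fun j hj1 hj2 => not_bit_between k _ hk (by omega) (by omega)⟩
    · rw [e]; exact hb1
    · rw [e, testBit_R]
      exact ⟨hb1, fun j hj1 hj2 => not_bit_between (k + 1) _ (by omega) (by omega) (by omega)⟩

theorem bit_D_iff (k : ℕ) (hk : 1 ≤ k) (hK : k ≤ 261148) :
    (D 74).testBit (pos k) = true ↔ pos (k + 2) - pos (k + 1) < pos (k + 1) - pos k := by
  have hb0 := pos_bit k hk (by omega)
  have hb1 := pos_bit (k + 1) (by omega) (by omega)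
  have hb2 := pos_bit (k + 2) (by omega) (by omega)
  have hl1 := pos_lt k (k + 1) hk (by omega)
  have hl2 := pos_lt (k + 1) (k + 2) (by omega) (by omega)
  have e3 : pos (k + 1 + 1) = pos (k + 2) := rfl
  have hg := gap_le k hk hK
  have hx : ∀ h i, P.testBit i = true → ((P ^^^ R h).testBit i = true ↔ ¬ (R h).testBit i = true) := by
    intro h i hi
    rw [Nat.testBit_xor, hi]
    cases (R h).testBit i <;> simp
  rw [testBit_D]
  constructor
  · rintro ⟨h, h1, h2, h3, h4⟩
    rw [testBit_R] at h2
    have e : pos k + (h + 1) = pos (k + 1) := by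
      rcases lt_trichotomy (pos k + (h + 1)) (pos (k + 1)) with h5 | h5 | h5
      · exact absurd h3 (not_bit_between k _ hk (by omega) h5)
      · exact h5
      · exfalso
        apply h2.2 (pos (k + 1) - pos k) (by omega) (by omega)
        have : pos k + (pos (k + 1) - pos k) = pos (k + 1) := by omega
        rw [this]; exact hb1
    rw [e, hx _ _ hb1, testBit_R] at h4
    by_contra hcon
    apply h4
    exact ⟨hb1, fun j hj1 hj2 => not_bit_between (k + 1) _ (by omega) (by omega) (by omega)⟩
  · intro hlt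
    have e : pos k + (pos (k + 1) - pos k - 1 + 1) = pos (k + 1) := by omega
    refine ⟨pos (k + 1) - pos k - 1, by omega, ?_, ?_, ?_⟩
    · rw [testBit_R]
      exact ⟨hb0, fun j hj1 hj2 => not_bit_between k _ hk (by omega) (by omega)⟩
    · rw [e]; exact hb1
    · rw [e, hx _ _ hb1, testBit_R]
      rintro ⟨_, h5⟩
      apply h5 (pos (k + 2) - pos (k + 1)) (by omega) (by omega)
      have : pos (k + 1) + (pos (k + 2) - pos (k + 1)) = pos (k + 2) := by omega
      rw [this]; exact hb2

/-- The contribution of a position. -/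
def F (i : ℕ) : ℤ := (if (U 74).testBit i = true then 1 else 0) - (if (D 74).testBit i = true then 1 else 0)

theorem g_eq (k : ℕ) (hk : 1 ≤ k) : g (k + 1) = 2 * ((pos (k + 1) : ℤ) - (pos k : ℤ)) := by
  have h1 := pos_spec k hk
  have h2 := pos_spec (k + 1) (by omega)
  unfold g
  rw [Nat.add_sub_cancel, ← h1, ← h2]
  push_cast
  ring

theorem sign_eq (k : ℕ) (hk : 1 ≤ k) (hK : k ≤ 261148) : Int.sign (g (k + 2) - g (k + 1)) = F (pos k) := by
  have hl1 := pos_lt k (k + 1) hk (by omega)
  have hl2 := pos_lt (k + 1) (k + 2) (by omega) (by omega)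
  have e1 := g_eq k hk
  have e2 := g_eq (k + 1) (by omega)
  rw [show k + 2 = k + 1 + 1 from rfl, e1, e2]
  unfold F
  rw [if_congr (bit_U_iff k hk hK) rfl rfl, if_congr (bit_D_iff k hk hK) rfl rfl]
  rcases lt_trichotomy (pos (k + 1) - pos k) (pos (k + 2) - pos (k + 1)) with h | h | h
  · rw [if_pos h, if_neg (by omega)]
    rw [Int.sign_eq_one_of_pos]
    · norm_num
    · have e3 : pos (k + 1 + 1) = pos (k + 2) := rfl
      rw [e3]; omega
  · rw [if_neg (by omega), if_neg (by omega)]
    have e3 : pos (k + 1 + 1) = pos (k + 2) := rfl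
    rw [e3, show (2 * ((pos (k + 2) : ℤ) - (pos (k + 1) : ℤ)) - 2 * ((pos (k + 1) : ℤ) - (pos k : ℤ))) = 0 by omega]
    simp
  · rw [if_neg (by omega), if_pos h]
    rw [Int.sign_eq_neg_one_of_neg]
    · norm_num
    · have e3 : pos (k + 1 + 1) = pos (k + 2) := rfl
      rw [e3]; omega

theorem sum_F : ∑ k ∈ Finset.Icc 1 261148, F (pos k) = 0 := by
  have h1 : ∑ k ∈ Finset.Icc 1 261148, F (pos k) =
      ∑ i ∈ (Finset.range E).filter (fun i => P.testBit i = true), F i := by
    apply Finset.sum_bij (fun k _ => pos k)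
    · intro k hk
      rw [Finset.mem_Icc] at hk
      rw [Finset.mem_filter, Finset.mem_range]
      refine ⟨?_, pos_bit k hk.1 (by omega)⟩
      have h2 : pos k ≤ pos 261148 := by
        rcases Nat.lt_or_ge k 261148 with h | h
        · exact (pos_lt k _ hk.1 h).le
        · have : k = 261148 := by omega
          rw [this]
      rw [pos_K] at h2
      unfold E
      omega
    · intro j hj k hk h
      rw [Finset.mem_Icc] at hj hk
      exact pos_inj hj.1 hk.1 h
    · intro i hi
      rw [Finset.mem_filter, Finset.mem_range, testBit_P] at hi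
      obtain ⟨k, hk, rfl⟩ := exists_index i hi.2.2
      refine ⟨k, ?_, rfl⟩
      rw [Finset.mem_Icc]
      refine ⟨hk, ?_⟩
      by_contra h
      have h2 := pos_lt 261148 k (by norm_num) (by omega)
      rw [pos_K] at h2
      have h3 := hi.1
      unfold E at h3
      omega
    · intro k _
      rfl
  have h2 : ∑ i ∈ (Finset.range E).filter (fun i => P.testBit i = true), F i = ∑ i ∈ Finset.range E, F i := by
    apply Finset.sum_subset (Finset.filter_subset _ _)
    intro i hi hni
    rw [Finset.mem_filter, not_and] at hni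
    have h3 := hni hi
    unfold F
    rw [if_neg, if_neg]
    · norm_num
    · rw [testBit_D]
      rintro ⟨h, _, h4, _⟩
      rw [testBit_R] at h4
      exact h3 h4.1
    · rw [testBit_U]
      rintro ⟨h, _, h4, _⟩
      rw [testBit_R] at h4
      exact h3 h4.1
  have h3 : cnt E (U 74) = cnt E (D 74) := by
    have h4 := comp_UD
    rw [pop_eq _ _ _ (by norm_num) (by norm_num), pop_eq _ _ _ (by norm_num) (by norm_num),
      cnt_mask _ _ _ (by unfold E; norm_num), cnt_mask _ _ _ (by unfold E; norm_num)] at h4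
    exact h4
  rw [h1, h2]
  unfold F
  rw [Finset.sum_sub_distrib]
  rw [cnt_eq_sum, cnt_eq_sum] at h3
  have h5 : ((∑ i ∈ Finset.range E, if (U 74).testBit i = true then 1 else 0 : ℕ) : ℤ) =
      ((∑ i ∈ Finset.range E, if (D 74).testBit i = true then 1 else 0 : ℕ) : ℤ) := by rw [h3]
  push_cast at h5
  rw [h5]
  ring

/-- The score at `n = 261150` is `1`. -/
theorem score : a 261150 = 1 := by
  unfold a
  have h1 : Finset.Icc 2 261150 = insert 2 (Finset.Icc 3 261150) := by
    ext k
    simp only [Finset.mem_insert, Finset.mem_Icc]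
    omega
  rw [h1, Finset.sum_insert (by simp)]
  have h2 : Int.sign (g 2 - g (2 - 1)) = 1 := by
    have e0 : p 0 = 2 := Nat.nth_prime_zero_eq_two
    have e1 : p 1 = 3 := Nat.nth_prime_one_eq_three
    have e2 : p 2 = 5 := Nat.nth_prime_two_eq_five
    have g1 : g 1 = 1 := by unfold g; rw [show 1 - 1 = 0 from rfl, e0, e1]; norm_num
    have g2 : g 2 = 2 := by unfold g; rw [show 2 - 1 = 1 from rfl, e1, e2]; norm_num
    rw [show 2 - 1 = 1 from rfl, g1, g2]
    rfl
  have h3 : ∑ k ∈ Finset.Icc 3 261150, Int.sign (g k - g (k - 1)) = ∑ k ∈ Finset.Icc 1 261148, F (pos k) := by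
    symm
    apply Finset.sum_bij (fun k _ => k + 2)
    · intro k hk
      rw [Finset.mem_Icc] at hk ⊢
      omega
    · intro j _ k _ h
      omega
    · intro k hk
      rw [Finset.mem_Icc] at hk
      exact ⟨k - 2, by rw [Finset.mem_Icc]; omega, by omega⟩
    · intro k hk
      rw [Finset.mem_Icc] at hk
      rw [show k + 2 - 1 = k + 1 from rfl]
      exact (sign_eq k hk.1 hk.2).symm
  rw [h2, h3, sum_F]
  norm_num

/-- **Theorem.** There is `n > 250000` with `a(n) > 0` (the proof takes `n = 261150`, where `a(n) = 1`). -/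
theorem result : ∃ n : ℕ, 250000 < n ∧ 0 < a n :=
  ⟨261150, by norm_num, by rw [score]; norm_num⟩

end Pool.Agent.Results.MP_69d63a_nt.PositiveScore
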